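import Pool.Agent.Y342.SK.Sym

/-!
# A block construction of Hadamard matrices of order `4 (2 n + 1)`

From a skew core `W` of order `n` and two symmetric commuting matrices `A`, `B` of order `n` with
`A` having zero diagonal, all other entries of `A` and `B` being `±1`, and
`A ^ 2 + B ^ 2 = (2 n - 1) I`.
-/

set_option autoImplicit false

namespace Pool.Agent.R772.Yam

open Finset
open Pool.Agent.H108R3.Had (HasHad)
open Pool.Agent.Y342.SK (IsCoreG Sg)

/-- sign pattern of the blocks `A` -/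
def al : Fin 4 → Fin 4 → ℤ := ![![1, 0, 0, 0], ![0, 1, 0, 0], ![0, 0, -1, 0], ![0, 0, 0, -1]]

/-- sign pattern of the blocks `B` -/
def be : Fin 4 → Fin 4 → ℤ := ![![0, 1, 0, 0], ![-1, 0, 0, 0], ![0, 0, 0, -1], ![0, 0, 1, 0]]

/-- sign pattern of the blocks `I` in `V` and `W` in `U` -/
def ga : Fin 4 → Fin 4 → ℤ := ![![0, 0, 1, 1], ![0, 0, 1, -1], ![1, 1, 0, 0], ![1, -1, 0, 0]]

/-- the identity pattern -/
def de : Fin 4 → Fin 4 → ℤ := fun a b => if a = b then 1 else 0

/-- the Sylvester matrix -/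
def sy : Fin 4 → Fin 4 → ℤ := ![![1, 1, 1, 1], ![1, -1, 1, -1], ![1, 1, -1, -1], ![1, -1, -1, 1]]

/-- the matrix `J - 2 I` -/
def hf : Fin 4 → Fin 4 → ℤ := fun a b => if a = b then -1 else 1

/-- the corner `- (1 / 2) sy hf` -/
def co : Fin 4 → Fin 4 → ℤ := ![![-1, -1, -1, -1], ![1, -1, 1, -1], ![1, 1, -1, -1], ![1, -1, -1, 1]]

/-- the data of the construction -/
structure Data (α : Type) [Fintype α] [DecidableEq α] where
  W : α → α → ℤ
  A : α → α → ℤ
  B : α → α → ℤ
  hW : IsCoreG (-1) W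
  A0 : ∀ x, A x x = 0
  A1 : ∀ x y, x ≠ y → Sg (A x y)
  B1 : ∀ x y, Sg (B x y)
  As : ∀ x y, A y x = A x y
  Bs : ∀ x y, B y x = B x y
  sq : ∀ x y, ∑ z, A x z * A y z + ∑ z, B x z * B y z =
    if x = y then 2 * (Fintype.card α : ℤ) - 1 else 0
  com : ∀ x y, ∑ z, A x z * B y z = ∑ z, B x z * A y z

theorem co_check : ∀ a b, 2 * co a b = - ∑ c, sy a c * hf c b := by decide

namespace Data

variable {α : Type} [Fintype α] [DecidableEq α] (D : Data α)

/-- the part with the core -/
def U (p p' : Fin 4 × α) : ℤ :=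
  de p.1 p'.1 * (if p.2 = p'.2 then 1 else 0) + ga p.1 p'.1 * D.W p.2 p'.2

/-- the part with `A` and `B` -/
def V (p p' : Fin 4 × α) : ℤ :=
  al p.1 p'.1 * D.A p.2 p'.2 + be p.1 p'.1 * D.B p.2 p'.2 +
    ga p.1 p'.1 * (if p.2 = p'.2 then 1 else 0)

theorem inner_U (p r p' r' : ℤ) (x y : α) :
    ∑ z, (p * (if x = z then 1 else 0) + r * D.W x z) *
      (p' * (if y = z then 1 else 0) + r' * D.W y z) =
    (p * p') * (if x = y then 1 else 0) + (r * p' - p * r') * D.W x y +
      (r * r') * ((if x = y then (Fintype.card α : ℤ) else 0) - 1) := by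
  have h1 : ∀ z, (p * (if x = z then 1 else 0) + r * D.W x z) *
      (p' * (if y = z then 1 else 0) + r' * D.W y z) =
      (p * p') * ((if x = z then 1 else 0) * (if y = z then 1 else 0)) +
      (p * r') * ((if x = z then 1 else 0) * D.W y z) +
      (r * p') * (D.W x z * (if y = z then 1 else 0)) + (r * r') * (D.W x z * D.W y z) := by
    intro z; ring
  have h2 : D.W y x = - D.W x y := by rw [D.hW.sym x y]; ring
  rw [sum_congr rfl fun z _ => h1 z]
  simp only [sum_add_distrib, ← mul_sum, ite_mul, one_mul, zero_mul, mul_ite, mul_one, mul_zero,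
    sum_ite_eq, mem_univ, if_true, D.hW.mul, h2]
  ring

theorem inner_V (p r s p' r' s' : ℤ) (x y : α) :
    ∑ z, (p * D.A x z + r * D.B x z + s * (if x = z then 1 else 0)) *
      (p' * D.A y z + r' * D.B y z + s' * (if y = z then 1 else 0)) =
    (p * p') * ((if x = y then 2 * (Fintype.card α : ℤ) - 1 else 0) - ∑ z, D.B x z * D.B y z) +
      (p * r' + r * p') * (∑ z, D.B x z * D.A y z) + (r * r') * (∑ z, D.B x z * D.B y z) +
      (p * s' + s * p') * D.A x y + (r * s' + s * r') * D.B x y +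
      (s * s') * (if x = y then 1 else 0) := by
  have h1 : ∀ z, (p * D.A x z + r * D.B x z + s * (if x = z then 1 else 0)) *
      (p' * D.A y z + r' * D.B y z + s' * (if y = z then 1 else 0)) =
      (p * p') * (D.A x z * D.A y z) + (p * r') * (D.A x z * D.B y z) +
      (r * p') * (D.B x z * D.A y z) + (r * r') * (D.B x z * D.B y z) +
      (p * s') * (D.A x z * (if y = z then 1 else 0)) +
      (s * p') * ((if x = z then 1 else 0) * D.A y z) +
      (r * s') * (D.B x z * (if y = z then 1 else 0)) +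
      (s * r') * ((if x = z then 1 else 0) * D.B y z) +
      (s * s') * ((if x = z then 1 else 0) * (if y = z then 1 else 0)) := by
    intro z; ring
  rw [sum_congr rfl fun z _ => h1 z]
  simp only [sum_add_distrib, ← mul_sum, ite_mul, one_mul, zero_mul, mul_ite, mul_one, mul_zero,
    sum_ite_eq, mem_univ, if_true, D.As x y, D.Bs x y]
  rw [D.com x y, ← D.sq x y]
  ring

theorem UU (p p' : Fin 4 × α) : ∑ z : Fin 4 × α, D.U p z * D.U p' z =
    (if p = p' then 2 * (Fintype.card α : ℤ) + 1 else 0) - 2 * de p.1 p'.1 := by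
  obtain ⟨a, x⟩ := p
  obtain ⟨b, y⟩ := p'
  rw [Fintype.sum_prod_type]
  simp only [U]
  rw [sum_congr rfl fun c _ => D.inner_U _ _ _ _ x y]
  simp only [sum_add_distrib, ← sum_mul, sum_sub_distrib]
  have h1 : ∀ a b : Fin 4, ∑ c, de a c * de b c = de a b := by decide
  have h2 : ∀ a b : Fin 4, ∑ c, ga a c * de b c = ga a b := by decide
  have h3 : ∀ a b : Fin 4, ∑ c, de a c * ga b c = ga a b := by decide
  have h4 : ∀ a b : Fin 4, ∑ c, ga a c * ga b c = 2 * de a b := by decide
  rw [h1, h2, h3, h4]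
  simp only [de, Prod.mk.injEq]
  by_cases hab : a = b <;> by_cases hxy : x = y <;> simp [hab, hxy] <;> ring

theorem VV (p p' : Fin 4 × α) : ∑ z : Fin 4 × α, D.V p z * D.V p' z =
    if p = p' then 2 * (Fintype.card α : ℤ) + 1 else 0 := by
  obtain ⟨a, x⟩ := p
  obtain ⟨b, y⟩ := p'
  rw [Fintype.sum_prod_type]
  simp only [V]
  rw [sum_congr rfl fun c _ => D.inner_V _ _ _ _ _ _ x y]
  simp only [sum_add_distrib, ← sum_mul]
  have h1 : ∀ a b : Fin 4, ∑ c, al a c * al b c = de a b := by decide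
  have h2 : ∀ a b : Fin 4, ∑ c, al a c * be b c + ∑ c, be a c * al b c = 0 := by decide
  have h3 : ∀ a b : Fin 4, ∑ c, be a c * be b c = de a b := by decide
  have h4 : ∀ a b : Fin 4, ∑ c, al a c * ga b c + ∑ c, ga a c * al b c = 0 := by decide
  have h5 : ∀ a b : Fin 4, ∑ c, be a c * ga b c + ∑ c, ga a c * be b c = 0 := by decide
  have h6 : ∀ a b : Fin 4, ∑ c, ga a c * ga b c = 2 * de a b := by decide
  rw [h1, h2, h3, h4, h5, h6]
  simp only [de, Prod.mk.injEq]
  by_cases hab : a = b <;> by_cases hxy : x = y <;> simp [hab, hxy] <;> ring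

theorem Urow (p : Fin 4 × α) (c : Fin 4) : ∑ y, D.U p (c, y) = de p.1 c := by
  obtain ⟨a, x⟩ := p
  simp only [U, sum_add_distrib, ← mul_sum, D.hW.row, mul_zero, add_zero]
  simp

theorem UV_sign (p p' : Fin 4 × α) : Sg (D.U p p' + D.V p p') ∧ Sg (D.U p p' - D.V p p') := by
  obtain ⟨a, x⟩ := p
  obtain ⟨b, y⟩ := p'
  by_cases hxy : x = y
  · subst hxy
    have hA := D.A0 x
    have hW := D.hW.diag x
    rcases D.B1 x x with hB | hB <;> simp only [U, V, hA, hW, hB] <;> clear hA hW hB <;>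
      revert a b <;> simp only [Sg] <;> decide
  · have hW := D.hW.sign x y hxy
    have hA := D.A1 x y hxy
    have hB := D.B1 x y
    simp only [U, V, if_neg hxy]
    rcases hW with hW | hW <;> rcases hA with hA | hA <;> rcases hB with hB | hB <;>
      rw [hW, hA, hB] <;> clear hA hW hB hxy <;> revert a b <;> simp only [Sg] <;> decide

/-- sign of a pair of booleans -/
def ka (s t : Bool) : ℤ := if s = t then 1 else -1

/-- the matrix -/
def M : Fin 4 ⊕ ((Fin 4 × α) × Bool) → Fin 4 ⊕ ((Fin 4 × α) × Bool) → ℤ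
  | Sum.inl i, Sum.inl j => co i j
  | Sum.inl i, Sum.inr r => sy i r.1.1
  | Sum.inr r, Sum.inl j => hf r.1.1 j
  | Sum.inr r, Sum.inr r' => D.U r.1 r'.1 + ka r.2 r'.2 * D.V r.1 r'.1

theorem M_sign (p p' : Fin 4 ⊕ ((Fin 4 × α) × Bool)) : D.M p p' = 1 ∨ D.M p p' = -1 := by
  rcases p with i | ⟨⟨a, x⟩, s⟩ <;> rcases p' with j | ⟨⟨b, y⟩, t⟩
  · simp only [M]; revert i j; decide
  · simp only [M]; revert i b; decide
  · simp only [M]; revert a j; decide
  · have h := D.UV_sign (a, x) (b, y)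
    simp only [M, ka]
    split_ifs
    · rw [one_mul]; exact h.1
    · rw [neg_one_mul, ← sub_eq_add_neg]; exact h.2

theorem inl_inr (i : Fin 4) (p : Fin 4 × α) (s : Bool) :
    ∑ z : (Fin 4 × α) × Bool, sy i z.1.1 * (D.U p z.1 + ka s z.2 * D.V p z.1) =
      2 * sy i p.1 := by
  rw [Fintype.sum_prod_type]
  have h1 : ∀ z : Fin 4 × α, ∑ t : Bool, sy i z.1 * (D.U p z + ka s t * D.V p z) =
      2 * (sy i z.1 * D.U p z) := by
    intro z
    rw [Fintype.sum_bool]
    cases s <;> simp [ka] <;> ring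
  rw [sum_congr rfl fun z _ => h1 z, ← mul_sum, Fintype.sum_prod_type]
  simp only [← mul_sum, D.Urow]
  have h2 : ∀ (i a : Fin 4), ∑ c, sy i c * de a c = sy i a := by decide
  rw [h2]

theorem main_row (p p' : Fin 4 ⊕ ((Fin 4 × α) × Bool)) :
    ∑ z, D.M p z * D.M p' z = if p = p' then 4 * (2 * (Fintype.card α : ℤ) + 1) else 0 := by
  rw [Fintype.sum_sum_type]
  rcases p with i | ⟨p, s⟩ <;> rcases p' with j | ⟨p', s'⟩
  · simp only [M, Sum.inl.injEq]
    rw [Fintype.sum_prod_type]
    simp only [sum_const, card_univ, Fintype.card_bool, nsmul_eq_mul]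
    rw [Fintype.sum_prod_type]
    simp only [sum_const, card_univ, nsmul_eq_mul]
    have h1 : ∀ i j : Fin 4, ∑ c, co i c * co j c = 4 * de i j := by decide
    have h2 : ∀ i j : Fin 4, ∑ c, sy i c * sy j c = 4 * de i j := by decide
    rw [h1]
    have h3 : ∑ c : Fin 4, (Fintype.card α : ℤ) * (((2 : ℕ) : ℤ) * (sy i c * sy j c)) =
        2 * (Fintype.card α : ℤ) * ∑ c, sy i c * sy j c := by
      rw [mul_sum]
      exact sum_congr rfl fun c _ => by push_cast; ring
    rw [h3, h2]
    simp only [de]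
    by_cases hij : i = j <;> simp [hij] <;> ring
  · simp only [M, reduceCtorEq, if_false]
    rw [D.inl_inr]
    have h1 : ∀ i a : Fin 4, ∑ c, co i c * hf a c = -2 * sy i a := by decide
    rw [h1]
    ring
  · simp only [M, reduceCtorEq, if_false]
    have h1 : ∀ i a : Fin 4, ∑ c, hf a c * co i c = -2 * sy i a := by decide
    have h2 := D.inl_inr j p s
    simp only [mul_comm (sy j _)] at h2
    rw [h1, h2]
    ring
  · simp only [M, Sum.inr.injEq]
    have h1 : ∀ a b : Fin 4, ∑ c, hf a c * hf b c = 4 * de a b := by decide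
    rw [h1, Fintype.sum_prod_type]
    have h2 : ∀ z : Fin 4 × α, ∑ t : Bool, (D.U p z + ka s t * D.V p z) *
        (D.U p' z + ka s' t * D.V p' z) =
        2 * (D.U p z * D.U p' z) + 2 * ka s s' * (D.V p z * D.V p' z) := by
      intro z
      rw [Fintype.sum_bool]
      cases s <;> cases s' <;> simp [ka] <;> ring
    rw [sum_congr rfl fun z _ => h2 z, sum_add_distrib, ← mul_sum, ← mul_sum, D.UU, D.VV]
    by_cases hp : p = p'
    · subst hp
      cases s <;> cases s' <;> simp [ka, de] <;> ring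
    · simp [hp]
      ring

include D in
theorem hasHad (n : ℕ) (hn : n = 4 * (2 * Fintype.card α + 1)) : HasHad n := by
  apply Pool.Agent.TH432.Had.had_reindex (ι := Fin 4 ⊕ ((Fin 4 × α) × Bool)) _ D.M D.M_sign
  · intro p p'
    rw [D.main_row, hn]
    push_cast
    rfl
  · simp only [Fintype.card_sum, Fintype.card_prod, Fintype.card_bool, Fintype.card_fin]
    omega

end Data

end Pool.Agent.R772.Yam
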