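import Pool.Agent.R772.Yam.Block

/-!
# Two commuting symmetric matrices `A`, `B` of order `(q + 1) / 2` with `A ^ 2 + B ^ 2 = q I`

For a prime power `q = 1 (mod 4)`, from the Paley conference matrix on the projective line and the
involution `x ↦ l / x`, `l` a nonsquare.
-/

set_option autoImplicit false

namespace Pool.Agent.R772.Yam

open Finset
open Pool.Agent.H108R3.Had (HasHad)
open Pool.Agent.Y342.SK (IsCoreG Sg)
open Pool.Agent.TH432.Had (sum_chi chi_neg chi_sq char_ne_two chi_neg_one)

variable {F : Type} [Field F] [Fintype F] [DecidableEq F]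

/-- representatives of the pairs `{x, l / x}` -/
abbrev Rep (l : F) : Type := {x : F // x ≠ 0 ∧ Fintype.equivFin F x < Fintype.equivFin F (l / x)}

noncomputable instance (l : F) : Fintype (Rep l) := by
  classical exact Fintype.ofFinite _

theorem sum_rep {l : F} (hl : ¬ IsSquare l) (h : F → ℤ) :
    ∑ t : Rep l, (h t + h (l / t)) = ∑ t, h t - h 0 := by
  classical
  have hl0 : l ≠ 0 := fun h0 => hl (by rw [h0]; exact IsSquare.zero)
  let e := Fintype.equivFin F
  have hinv : ∀ x : F, l / (l / x) = x := by
    intro x
    by_cases hx : x = 0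
    · subst hx; simp
    · field_simp
  let s : F ≃ F := ⟨fun x => l / x, fun x => l / x, hinv, hinv⟩
  have h1 : ∀ g : F → ℤ, ∑ t : Rep l, g t = ∑ x : F, if (x ≠ 0 ∧ e x < e (l / x)) then g x else 0 := by
    intro g
    rw [← Finset.sum_filter]
    symm
    apply Finset.sum_subtype
    intro x
    simp [e]
  rw [h1 (fun x => h x + h (l / x))]
  have h2 : ∑ x : F, (if (x ≠ 0 ∧ e x < e (l / x)) then h x + h (l / x) else 0) =
      ∑ x : F, (if (x ≠ 0 ∧ e x < e (l / x)) then h x else 0) +
      ∑ x : F, (if (x ≠ 0 ∧ e (l / x) < e x) then h x else 0) := by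
    rw [← Equiv.sum_comp s (fun x => if (x ≠ 0 ∧ e (l / x) < e x) then h x else 0),
      ← Finset.sum_add_distrib]
    refine sum_congr rfl fun x _ => ?_
    have h3 : (s x ≠ 0 ∧ e (l / s x) < e (s x)) ↔ (x ≠ 0 ∧ e x < e (l / x)) := by
      change (l / x ≠ 0 ∧ e (l / (l / x)) < e (l / x)) ↔ _
      rw [hinv]
      simp [hl0]
    simp only [h3]
    change _ = _ + (if _ then h (l / x) else 0)
    split_ifs <;> simp
  rw [h2, ← Finset.sum_add_distrib]
  have h4 : ∀ x : F, (if (x ≠ 0 ∧ e x < e (l / x)) then h x else 0) +
      (if (x ≠ 0 ∧ e (l / x) < e x) then h x else 0) = h x - if x = 0 then h 0 else 0 := by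
    intro x
    by_cases hx : x = 0
    · subst hx; simp
    · have hne : e x ≠ e (l / x) := by
        intro h5
        have h6 := e.injective h5
        apply hl
        refine ⟨x, ?_⟩
        field_simp at h6
        rw [← h6]; ring
      rcases lt_or_gt_of_ne hne with h7 | h7
      · rw [if_pos ⟨hx, h7⟩, if_neg (fun h8 => absurd h8.2 (not_lt.2 h7.le)), if_neg hx]
        ring
      · rw [if_neg (fun h8 => absurd h8.2 (not_lt.2 h7.le)), if_pos ⟨hx, h7⟩, if_neg hx]
        ring
  rw [sum_congr rfl fun x _ => h4 x, Finset.sum_sub_distrib]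
  simp

theorem card_rep {l : F} (hl : ¬ IsSquare l) :
    2 * (Fintype.card (Rep l) : ℤ) = (Fintype.card F : ℤ) - 1 := by
  have h1 := sum_rep hl (fun _ => 1)
  simp only [sum_const, card_univ, nsmul_eq_mul, mul_one] at h1
  linarith

theorem chi_ns {l : F} (hl : ¬ IsSquare l) : quadraticChar F l = -1 :=
  quadraticChar_neg_one_iff_not_isSquare.2 hl

/-- the matrix `A` -/
noncomputable def mA (l : F) : Option (Rep l) → Option (Rep l) → ℤ
  | none, none => 0
  | none, some _ => 1
  | some _, none => 1
  | some x, some y => quadraticChar F (x - y)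

/-- the matrix `B` -/
noncomputable def mB (l : F) : Option (Rep l) → Option (Rep l) → ℤ
  | none, none => 1
  | none, some y => quadraticChar F y
  | some x, none => quadraticChar F x
  | some x, some y => quadraticChar F (x * y - l)

theorem rep_mul_ne {l : F} (x y : Rep l) : (x : F) * y ≠ l := by
  intro h
  have hx := x.2
  have hy := y.2
  have h1 : l / (x : F) = y := (div_eq_iff hx.1).2 (by rw [mul_comm]; exact h.symm)
  have h2 : l / (y : F) = x := (div_eq_iff hy.1).2 h.symm
  rw [h1] at hx
  rw [h2] at hy
  exact absurd (hx.2.trans hy.2) (lt_irrefl _)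

theorem chi_mul_sub {l x t : F} (ht : t ≠ 0) :
    quadraticChar F (x * t - l) = quadraticChar F t * quadraticChar F (x - l / t) := by
  rw [← map_mul]
  congr 1
  field_simp

theorem sum_chi_sub (h4 : Fintype.card F % 4 = 1) (x : F) : ∑ t, quadraticChar F (x - t) = 0 := by
  have h7 := Equiv.sum_comp (Equiv.subLeft x) (fun w => quadraticChar F w)
  simp only [Equiv.subLeft_apply] at h7
  rw [h7, quadraticChar_sum_zero (char_ne_two h4)]

theorem chi_mul_sub' (h4 : Fintype.card F % 4 = 1) {l y t : F} (hy : y ≠ 0) :
    quadraticChar F (y * t - l) = quadraticChar F y * quadraticChar F (l / y - t) := by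
  rw [← map_mul, ← chi_neg h4]
  congr 1
  field_simp
  ring

theorem chi_inv_sub {l y t : F} (hl : ¬ IsSquare l) (ht : t ≠ 0) :
    quadraticChar F (y * (l / t) - l) = - (quadraticChar F t * quadraticChar F (y - t)) := by
  have h1 : y * (l / t) - l = l * (t⁻¹ * (y - t)) := by field_simp
  have h2 : quadraticChar F t⁻¹ = quadraticChar F t := by
    have h3 : quadraticChar F t * quadraticChar F t⁻¹ = 1 := by
      rw [← map_mul, mul_inv_cancel₀ ht, map_one]
    have h4 := chi_sq ht
    have h5 : quadraticChar F t ≠ 0 := fun h => by rw [h] at h4; simp at h4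
    exact mul_left_cancel₀ h5 (h3.trans h4.symm)
  rw [h1, map_mul, map_mul, h2, chi_ns hl]
  ring

theorem mA_diag (l : F) (x) : mA l x x = 0 := by
  rcases x with _ | x <;> simp [mA]

theorem mA_sign (l : F) (x y) (hxy : x ≠ y) : Sg (mA l x y) := by
  rcases x with _ | x <;> rcases y with _ | y
  · exact absurd rfl hxy
  · left; rfl
  · left; rfl
  · apply quadraticChar_dichotomy
    rw [sub_ne_zero]
    exact fun h => hxy (by rw [Subtype.ext h])

theorem mB_sign (l : F) (x y) : Sg (mB l x y) := by
  rcases x with _ | x <;> rcases y with _ | y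
  · left; rfl
  · exact quadraticChar_dichotomy y.2.1
  · exact quadraticChar_dichotomy x.2.1
  · apply quadraticChar_dichotomy
    rw [sub_ne_zero]
    exact rep_mul_ne x y

theorem mA_symm (h4 : Fintype.card F % 4 = 1) (l : F) (x y) : mA l y x = mA l x y := by
  rcases x with _ | x <;> rcases y with _ | y <;> simp only [mA]
  rw [← chi_neg h4, neg_sub]

theorem mB_symm (l : F) (x y) : mB l y x = mB l x y := by
  rcases x with _ | x <;> rcases y with _ | y <;> simp only [mB]
  rw [mul_comm]

theorem mAB_sq_none_some (h4 : Fintype.card F % 4 = 1) {l : F} (hl : ¬ IsSquare l) (y : Rep l) :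
    ∑ z, mA l none z * mA l (some y) z + ∑ z, mB l none z * mB l (some y) z = 0 := by
  rw [Fintype.sum_option, Fintype.sum_option]
  simp only [mA, mB, zero_mul, one_mul, zero_add]
  have h1 := sum_rep hl (fun t => quadraticChar F (y - t))
  rw [sum_chi_sub h4, Finset.sum_add_distrib] at h1
  have h2 : ∀ t : Rep l, quadraticChar F t * quadraticChar F (y * t - l) =
      quadraticChar F (y - l / t) := by
    intro t
    rw [chi_mul_sub t.2.1, ← mul_assoc, chi_sq t.2.1, one_mul]
  rw [sum_congr rfl fun t _ => h2 t]
  rw [sub_zero] at h1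
  linarith

theorem mAB_sq (h4 : Fintype.card F % 4 = 1) {l : F} (hl : ¬ IsSquare l) (x y) :
    ∑ z, mA l x z * mA l y z + ∑ z, mB l x z * mB l y z =
      if x = y then (Fintype.card F : ℤ) else 0 := by
  rcases x with _ | x <;> rcases y with _ | y
  · rw [Fintype.sum_option, Fintype.sum_option]
    simp only [mA, mB, mul_zero, mul_one, zero_add, if_true]
    have h2 : ∀ t : Rep l, quadraticChar F t * quadraticChar F t = 1 := fun t => chi_sq t.2.1
    rw [sum_congr rfl fun t _ => h2 t, sum_const, card_univ, nsmul_eq_mul, mul_one]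
    have := card_rep hl
    linarith
  · rw [mAB_sq_none_some h4 hl]
    simp
  · have h1 := mAB_sq_none_some h4 hl x
    simp only [mul_comm (mA l none _), mul_comm (mB l none _)] at h1
    rw [h1]
    simp
  · rw [Fintype.sum_option, Fintype.sum_option]
    simp only [mA, mB, mul_one, Option.some.injEq]
    have h1 := sum_rep hl (fun t => quadraticChar F (x - t) * quadraticChar F (y - t))
    rw [sum_chi h4, Finset.sum_add_distrib] at h1
    have h2 : ∀ t : Rep l, quadraticChar F (x * t - l) * quadraticChar F (y * t - l) =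
        quadraticChar F (x - l / t) * quadraticChar F (y - l / t) := by
      intro t
      rw [chi_mul_sub t.2.1, chi_mul_sub t.2.1]
      have := chi_sq t.2.1
      linear_combination (quadraticChar F (x - l / t) * quadraticChar F (y - l / t)) * this
    rw [sum_congr rfl fun t _ => h2 t]
    simp only [sub_zero] at h1
    have h3 : (if (x : F) = y then (Fintype.card F : ℤ) else 0) =
        if x = y then (Fintype.card F : ℤ) else 0 := by
      simp only [Subtype.ext_iff]
    rw [h3] at h1
    linarith

theorem mAB_com_none_some (h4 : Fintype.card F % 4 = 1) {l : F} (hl : ¬ IsSquare l) (y : Rep l) :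
    ∑ z, mA l none z * mB l (some y) z = ∑ z, mB l none z * mA l (some y) z := by
  rw [Fintype.sum_option, Fintype.sum_option]
  simp only [mA, mB, zero_mul, one_mul, zero_add]
  have h1 := sum_rep hl (fun t => quadraticChar F (y * t - l))
  rw [Finset.sum_add_distrib] at h1
  have h2 : ∑ t, quadraticChar F (y * t - l) = 0 := by
    rw [sum_congr rfl fun t _ => chi_mul_sub' h4 y.2.1, ← mul_sum, sum_chi_sub h4, mul_zero]
  have h3 : ∀ t : Rep l, quadraticChar F (y * (l / t) - l) =
      - (quadraticChar F t * quadraticChar F (y - t)) := fun t => chi_inv_sub hl t.2.1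
  rw [h2, sum_congr rfl fun t _ => h3 t, Finset.sum_neg_distrib] at h1
  simp only [mul_zero, zero_sub, chi_neg h4, chi_ns hl] at h1
  linarith

theorem mAB_com (h4 : Fintype.card F % 4 = 1) {l : F} (hl : ¬ IsSquare l) (x y) :
    ∑ z, mA l x z * mB l y z = ∑ z, mB l x z * mA l y z := by
  rcases x with _ | x <;> rcases y with _ | y
  · exact sum_congr rfl fun z _ => mul_comm _ _
  · exact mAB_com_none_some h4 hl y
  · have h1 := mAB_com_none_some h4 hl x
    simp only [mul_comm (mA l none _), mul_comm (mB l none _)] at h1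
    exact h1.symm
  · rw [Fintype.sum_option, Fintype.sum_option]
    simp only [mA, mB, mul_one, one_mul]
    have h1 := sum_rep hl (fun t => quadraticChar F (x - t) * quadraticChar F (y * t - l))
    rw [Finset.sum_add_distrib] at h1
    have h2 : ∑ t, quadraticChar F (x - t) * quadraticChar F (y * t - l) = - quadraticChar F y := by
      have h5 : ∀ t : F, quadraticChar F (x - t) * quadraticChar F (y * t - l) =
          quadraticChar F y * (quadraticChar F (x - t) * quadraticChar F (l / y - t)) := by
        intro t
        rw [chi_mul_sub' h4 y.2.1]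
        ring
      rw [sum_congr rfl fun t _ => h5 t, ← mul_sum, sum_chi h4, if_neg]
      · ring
      · intro h6
        apply rep_mul_ne x y
        rw [h6]
        field_simp [y.2.1]
    have h3 : ∀ t : Rep l, quadraticChar F (x - l / t) * quadraticChar F (y * (l / t) - l) =
        - (quadraticChar F (x * t - l) * quadraticChar F (y - t)) := by
      intro t
      rw [chi_inv_sub hl t.2.1, chi_mul_sub (l := l) (x := x) t.2.1]
      ring
    rw [h2, sum_congr rfl fun t _ => h3 t, Finset.sum_neg_distrib] at h1
    simp only [mul_zero, zero_sub, sub_zero, chi_neg h4, chi_ns hl] at h1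
    linarith

/-- Hadamard matrices of order `4 (q + 2)` -/
theorem had_field (h4 : Fintype.card F % 4 = 1) {v : ℕ} (hv : 2 * v = Fintype.card F + 1)
    {S : Fin v → Fin v → ℤ} (hS : IsCoreG (-1) S) : HasHad (4 * (Fintype.card F + 2)) := by
  classical
  obtain ⟨l, hl⟩ := FiniteField.exists_nonsquare (char_ne_two h4)
  have hc := card_rep hl
  have hcard : Fintype.card (Option (Rep l)) = v := by
    rw [Fintype.card_option]
    omega
  let e : Option (Rep l) ≃ Fin v := Fintype.equivFinOfCardEq hcard
  have hW : IsCoreG (-1) (fun x y => S (e x) (e y)) := by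
    refine ⟨fun x => hS.diag _, fun x y hxy => hS.sign _ _ fun h => hxy (e.injective h),
      fun x y => hS.sym _ _, fun x => ?_, fun x y => ?_⟩
    · rw [Equiv.sum_comp e (fun y => S (e x) y)]; exact hS.row _
    · rw [Equiv.sum_comp e (fun z => S (e x) z * S (e y) z), hS.mul, Fintype.card_fin, hcard]
      by_cases hxy : x = y
      · rw [if_pos hxy, if_pos (congrArg e hxy)]
      · rw [if_neg hxy, if_neg fun h => hxy (e.injective h)]
  have hq : 2 * (Fintype.card (Option (Rep l)) : ℤ) - 1 = Fintype.card F := by
    rw [Fintype.card_option]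
    push_cast
    linarith
  let D : Data (Option (Rep l)) :=
    { W := fun x y => S (e x) (e y)
      A := mA l
      B := mB l
      hW := hW
      A0 := mA_diag l
      A1 := mA_sign l
      B1 := mB_sign l
      As := mA_symm h4 l
      Bs := mB_symm l
      sq := fun x y => by rw [mAB_sq h4 hl, hq]
      com := mAB_com h4 hl }
  apply D.hasHad
  rw [hcard]
  omega

end Pool.Agent.R772.Yam
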