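import Pool.Agent.R772.Yam.Field

/-!
# Hadamard matrices of order `4 (q + 2)` for prime powers `q = -3` modulo a huge power of two
-/

set_option autoImplicit false

namespace Pool.Agent.R772.Yam

open Pool.Agent.H108R3.Had (HasHad)
open Pool.Agent.Y342.SK (IsCoreG Sg)
open Pool.Agent.W851.Had (tow)

theorem main_yam : ∃ C : ℕ, 2 ≤ C ∧ ∀ n q t : ℕ, IsPrimePow q → q ≤ tow n →
    2 ^ C ^ (n + 1) ≤ t → 2 ^ t ∣ q + 3 → HasHad (4 * (q + 2)) := by
  obtain ⟨C₀, hC₀, hs⟩ := Pool.Agent.Y342.SK.main_skew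
  refine ⟨C₀ + 1, by omega, fun n q t hq hqn ht hdv => ?_⟩
  have h1 : C₀ ^ (n + 1) + 1 ≤ (C₀ + 1) ^ (n + 1) := by
    have := pow_add_pow_le (by omega : 0 ≤ C₀) (by omega : 0 ≤ 1) (n := n + 1) (by omega)
    rwa [one_pow] at this
  have h2 : 2 ^ C₀ ^ (n + 1) * 2 ≤ t := by
    rw [← pow_succ]
    exact (Nat.pow_le_pow_right (by norm_num) h1).trans ht
  have h3 : 1 ≤ 2 ^ C₀ ^ (n + 1) := Nat.one_le_two_pow
  have ht1 : 2 ^ C₀ ^ (n + 1) ≤ t - 1 := by omega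
  obtain ⟨m, hm⟩ := hdv
  have h4 : 2 ^ t = 2 * 2 ^ (t - 1) := by
    conv_lhs => rw [show t = 1 + (t - 1) by omega, pow_add]
    norm_num
  have h5 : 2 ^ (t - 1) = 2 * 2 ^ (t - 2) := by
    conv_lhs => rw [show t - 1 = 1 + (t - 2) by omega, pow_add]
    norm_num
  have h6 : q + 3 = 2 * (2 ^ (t - 1) * m) := by rw [hm, h4]; ring
  have h7 : q + 3 = 4 * (2 ^ (t - 2) * m) := by rw [h6, h5]; ring
  obtain ⟨v, hv⟩ : ∃ v, v + 1 = 2 ^ (t - 1) * m := ⟨2 ^ (t - 1) * m - 1, by omega⟩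
  have hq2 : 2 ≤ q := hq.two_le
  obtain ⟨S, hS⟩ := Pool.Agent.Y342.SK.core_of hs (v := v) (n := n) (by omega) ht1 ⟨m, hv⟩
  obtain ⟨p, k, hp, hk, rfl⟩ := hq
  have hp' : p.Prime := hp.nat_prime
  have : Fact p.Prime := ⟨hp'⟩
  have : Fintype (GaloisField p k) := Fintype.ofFinite _
  have hcard : Fintype.card (GaloisField p k) = p ^ k := by
    rw [← Nat.card_eq_fintype_card, GaloisField.card p k (by omega)]
  classical
  have h8 := had_field (F := GaloisField p k) (v := v) (by rw [hcard]; omega)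
    (by rw [hcard]; omega) hS.toG
  rwa [hcard] at h8

end Pool.Agent.R772.Yam
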